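import Pool.Agent.Y685.SY.Stm

/-!
# Project SY, job MOLL: mollification of a weak primitive
-/

set_option maxSynthPendingDepth 3

open scoped ContDiff Topology
open MeasureTheory Set Metric

namespace Pool.Agent.Y455.SY

variable (E : Type) [NormedAddCommGroup E] [InnerProductSpace ℝ E] [FiniteDimensional ℝ E]
  [MeasurableSpace E] [BorelSpace E]

theorem t_MOLL : Pool.Agent.Y685.SY.S_MOLL E := by
  intro A γ U K hU hA hγ hw hK hKU ρ
  set F : E → E →L[ℝ] ℝ := K.indicator A with hF
  have hFi : Integrable F volume := by
    rw [hF, integrable_indicator_iff hK.measurableSet]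
    exact (hA.mono hKU).integrableOn_compact hK
  have hFl : LocallyIntegrable F volume := hFi.locallyIntegrable
  set L : (E →L[ℝ] ℝ) →L[ℝ] ℝ →L[ℝ] (E →L[ℝ] ℝ) :=
    (ContinuousLinearMap.lsmul ℝ ℝ).flip with hL
  set g : E → ℝ := ρ.normed volume with hg
  have hρ : ContDiff ℝ ∞ g := ρ.contDiff_normed
  have hρ1 : ContDiff ℝ 1 g := hρ.of_le (by simp)
  have hρc : HasCompactSupport g := ρ.hasCompactSupport_normed
  have hgd : Differentiable ℝ g := hρ1.differentiable one_ne_zero
  have e : (fun x => ∫ y, g (x - y) • F y) = MeasureTheory.convolution F g L volume := rfl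
  refine ⟨?_, ?_⟩
  · rw [e]
    exact hρc.contDiff_convolution_right L hFl hρ
  · intro x hx a b
    set φ : E → ℝ := fun y => g (x - y) with hφ
    have hφs : ContDiff ℝ ∞ φ := hρ.comp (contDiff_const.sub contDiff_id)
    have hφc : HasCompactSupport φ := hρc.comp_homeomorph (Homeomorph.subLeft x)
    have hφt : tsupport φ ⊆ closedBall x ρ.rOut := by
      refine closure_minimal ?_ isClosed_closedBall
      intro y hy
      have h1 : x - y ∈ Function.support g := hy
      rw [hg, ρ.support_normed_eq, mem_ball, dist_zero_right] at h1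
      rw [mem_closedBall, dist_comm, dist_eq_norm]
      exact h1.le
    have hφd : ∀ y v, fderiv ℝ φ y v = - fderiv ℝ g (x - y) v := by
      intro y v
      have h1 : HasFDerivAt (fun z : E => x - z) (-(ContinuousLinearMap.id ℝ E)) y :=
        (hasFDerivAt_id y).const_sub x
      have h2 := (hgd (x - y)).hasFDerivAt.comp y h1
      have h3 : fderiv ℝ φ y = (fderiv ℝ g (x - y)).comp (-(ContinuousLinearMap.id ℝ E)) :=
        h2.fderiv
      rw [h3]
      simp
    have hφ0 : ∀ y, y ∉ K → fderiv ℝ φ y = 0 := by
      intro y hy
      have h1 : y ∉ tsupport φ := fun h => hy (hx (hφt h))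
      by_contra hne
      exact h1 (support_fderiv_subset ℝ (Function.mem_support.2 hne))
    have hex := (hρc.fderiv ℝ).convolutionExists_right (L.precompR E) hFl
      (hρ1.continuous_fderiv one_ne_zero) x
    have hI : Integrable (fun t => (L.precompR E) (F t) (fderiv ℝ g (x - t))) volume := hex
    have hval : ∀ t c, ((L.precompR E) (F t) (fderiv ℝ g (x - t))) c
        = fderiv ℝ g (x - t) c • F t := by
      intro t c
      rfl
    have hD : ∀ a b : E, Integrable (fun y => A y b * fderiv ℝ φ y a) volume ∧
        fderiv ℝ (fun x => ∫ y, g (x - y) • F y) x a b = - ∫ y, A y b * fderiv ℝ φ y a := by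
      intro a b
      have hpt : ∀ y, ((L.precompR E) (F y) (fderiv ℝ g (x - y))) a b
          = - (A y b * fderiv ℝ φ y a) := by
        intro y
        rw [hval, ContinuousLinearMap.smul_apply, smul_eq_mul, hφd]
        by_cases hy : y ∈ K
        · rw [hF, indicator_of_mem hy]
          ring
        · have h0 := hφd y a
          rw [hφ0 y hy] at h0
          have h1 : fderiv ℝ g (x - y) a = 0 := by
            simpa using h0.symm
          rw [h1]
          ring
      have hI1 : Integrable (fun y => ((L.precompR E) (F y) (fderiv ℝ g (x - y))) a) volume :=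
        hI.apply_continuousLinearMap a
      have hI2 : Integrable (fun y => ((L.precompR E) (F y) (fderiv ℝ g (x - y))) a b) volume :=
        hI1.apply_continuousLinearMap b
      have hI3 : Integrable (fun y => - (A y b * fderiv ℝ φ y a)) volume := by
        refine hI2.congr (Filter.Eventually.of_forall fun y => ?_)
        exact hpt y
      refine ⟨by simpa using hI3.neg, ?_⟩
      rw [e, (hρc.hasFDerivAt_convolution_right L hFl hρ1 x).fderiv]
      change (∫ t, (L.precompR E) (F t) (fderiv ℝ g (x - t))) a b = _
      rw [ContinuousLinearMap.integral_apply hI, ContinuousLinearMap.integral_apply hI1,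
        ← integral_neg]
      exact integral_congr_ae (Filter.Eventually.of_forall fun y => hpt y)
    have h1 := hw φ hφs hφc ((hφt.trans hx).trans hKU) a b
    rw [(hD a b).2, (hD b a).2]
    rw [integral_sub (hD a b).1 (hD b a).1] at h1
    have h2 : ∫ y, g (x - y) * γ y a b = ∫ y, γ y a b * φ y := by
      refine integral_congr_ae (Filter.Eventually.of_forall fun y => ?_)
      exact mul_comm _ _
    rw [h2]
    linarith

end Pool.Agent.Y455.SY
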