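import Pool.Agent.Y501.SY.Stm

/-!
# Project SY, job SY-PERT: taming is stable under small perturbations
-/

set_option autoImplicit false

open Set Filter Topology MeasureTheory
open scoped Manifold ContDiff

noncomputable section

namespace Pool.Agent.Y455.SY

open Pool.Agent.Y501.SY

variable {d : ℕ} {X : Type} [TopologicalSpace X] [ChartedSpace (E d) X]

/-- the quadratic form of `σ` and `J` in the chart at `x` -/
def Q (σ : Form d X 2) (J : End d X) (x : X) (p v : E d) : ℝ :=
  pb (chartAt (E d) x).symm σ p ![v, inChart J x p v]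

/-- the derivative of the inverse chart -/
def A (x : X) (p : E d) : E d →L[ℝ] E d := mfderiv (𝓡 d) (𝓡 d) (chartAt (E d) x).symm p

/-- the derivative of the chart -/
def B (x : X) (p : E d) : E d →L[ℝ] E d :=
  mfderiv (𝓡 d) (𝓡 d) (chartAt (E d) x) ((chartAt (E d) x).symm p)

section

variable [IsManifold (𝓡 d) ∞ X]

theorem BA (x : X) {p : E d} (hp : p ∈ (chartAt (E d) x).target) (v : E d) :
    B x p (A x p v) = v := by
  have h := (mdifferentiable_chart (I := 𝓡 d) x).comp_symm_deriv hp
  exact DFunLike.congr_fun h v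

theorem A_surj (x : X) {p : E d} (hp : p ∈ (chartAt (E d) x).target) :
    Function.Surjective (A x p) := by
  have h1 : Function.Injective (A x p : E d →ₗ[ℝ] E d) := by
    intro v w h
    have h2 := congrArg (B x p) h
    change B x p (A x p v) = B x p (A x p w) at h2
    rwa [BA x hp, BA x hp] at h2
  exact (LinearMap.injective_iff_surjective).1 h1

theorem AB (x : X) {p : E d} (hp : p ∈ (chartAt (E d) x).target) (v : E d) :
    A x p (B x p v) = v := by
  obtain ⟨w, rfl⟩ := A_surj x hp v
  rw [BA x hp]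

theorem Q_eq (σ : Form d X 2) (J : End d X) (x : X) {p : E d}
    (hp : p ∈ (chartAt (E d) x).target) (v : E d) :
    Q σ J x p v = σ ((chartAt (E d) x).symm p) ![A x p v, J ((chartAt (E d) x).symm p) (A x p v)] := by
  have h1 : (A x p) (inChart J x p v) = J ((chartAt (E d) x).symm p) (A x p v) := AB x hp _
  have h2 : ∀ w : E d, pb (chartAt (E d) x).symm σ p ![v, w] =
      σ ((chartAt (E d) x).symm p) ![A x p v, A x p w] := by
    intro w
    unfold pb
    rw [ContinuousAlternatingMap.compContinuousLinearMap_apply]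
    congr 1
    funext i
    fin_cases i <;> rfl
  unfold Q
  rw [h2, h1]

theorem tames_iff (σ : Form d X 2) (J : End d X) (x : X) {p : E d}
    (hp : p ∈ (chartAt (E d) x).target) :
    TamesAt σ J ((chartAt (E d) x).symm p) ↔ ∀ v : E d, v ≠ 0 → 0 < Q σ J x p v := by
  constructor
  · intro h v hv
    rw [Q_eq σ J x hp]
    apply h
    intro h0
    apply hv
    have h1 := BA x hp v
    have h2 : A x p v = 0 := h0
    rw [h2, map_zero] at h1
    exact h1.symm
  · intro h v hv
    obtain ⟨w, hw⟩ := A_surj x hp v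
    have h1 := h w (by
      rintro rfl
      apply hv
      rw [← hw, map_zero]
      rfl)
    rw [Q_eq σ J x hp, hw] at h1
    exact h1

end

theorem Q_smul (σ : Form d X 2) (J : End d X) (x : X) (p v : E d) (s : ℝ) :
    Q σ J x p (s • v) = s ^ 2 * Q σ J x p v := by
  unfold Q
  have h1 : (![s • v, inChart J x p (s • v)] : Fin 2 → E d) =
      fun i => (fun _ : Fin 2 => s) i • (![v, inChart J x p v] : Fin 2 → E d) i := by
    funext i
    fin_cases i
    · rfl
    · exact map_smul (inChart J x p) s v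
  rw [h1, ContinuousAlternatingMap.map_smul_univ]
  simp [pow_two]

theorem pos_iff (q : E d → ℝ) (hq : ∀ (s : ℝ) (v : E d), q (s • v) = s ^ 2 * q v) :
    (∀ v : E d, v ≠ 0 → 0 < q v) ↔ ∀ v ∈ Metric.sphere (0 : E d) 1, 0 < q v := by
  constructor
  · intro h v hv
    apply h
    rintro rfl
    simp at hv
  · intro h v hv
    have h1 : v = ‖v‖ • (‖v‖⁻¹ • v) := by
      rw [smul_smul, mul_inv_cancel₀ (norm_ne_zero_iff.2 hv), one_smul]
    rw [h1, hq]
    refine mul_pos (pow_pos (norm_pos_iff.2 hv) 2) (h _ ?_)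
    rw [mem_sphere_zero_iff_norm, norm_smul, norm_inv, norm_norm,
      inv_mul_cancel₀ (norm_ne_zero_iff.2 hv)]

theorem Q_cont [IsManifold (𝓡 d) ∞ X] {σ : Form d X 2} (hσ : IsSmooth σ) {J : End d X}
    (hJ : IsAlmostComplex J) (x : X) {p v : E d} (hp : p ∈ (chartAt (E d) x).target) :
    ContinuousAt (fun z : E d × E d => Q σ J x z.1 z.2) (p, v) := by
  have h1 : ContinuousAt (pb (chartAt (E d) x).symm σ) p :=
    ((hσ _ _ (chartAt (E d) x).open_target (contMDiffOn_chart_symm)).continuousOn).continuousAt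
      ((chartAt (E d) x).open_target.mem_nhds hp)
  have h2 : ContinuousAt (inChart J x) p :=
    (hJ.cont x).continuousAt ((chartAt (E d) x).open_target.mem_nhds hp)
  have h3 : ContinuousAt (fun z : E d × E d => pb (chartAt (E d) x).symm σ z.1) (p, v) :=
    ContinuousAt.comp (f := Prod.fst) (x := (p, v)) h1 continuousAt_fst
  have h4 : ContinuousAt (fun z : E d × E d => inChart J x z.1) (p, v) :=
    ContinuousAt.comp (f := Prod.fst) (x := (p, v)) h2 continuousAt_fst
  have h5 : ContinuousAt (fun z : E d × E d => inChart J x z.1 z.2) (p, v) :=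
    h4.clm_apply continuousAt_snd
  have h6 : ContinuousAt (fun z : E d × E d => (![z.2, inChart J x z.1 z.2] : Fin 2 → E d))
      (p, v) := by
    rw [continuousAt_pi]
    intro i
    fin_cases i
    · exact continuousAt_snd
    · exact h5
  exact h3.eval h6

theorem Q_sum [IsManifold (𝓡 d) ∞ X] {κ : Type} [Fintype κ] (σ : Form d X 2)
    (η : κ → Form d X 2) (t : κ → ℝ) (J : End d X) (x : X) (p v : E d) :
    Q (σ + ∑ k, t k • η k) J x p v = Q σ J x p v + ∑ k, t k * Q (η k) J x p v := by
  unfold Q pb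
  simp only [ContinuousAlternatingMap.compContinuousLinearMap_apply, Pi.add_apply,
    Finset.sum_apply, Pi.smul_apply, ContinuousAlternatingMap.add_apply,
    ContinuousAlternatingMap.sum_apply, ContinuousAlternatingMap.smul_apply, smul_eq_mul]

theorem t_PERT : S_PERT := by
  intro d X _ _ _ J hJ κ _ σ η hσ hη x hx
  classical
  set c := chartAt (E d) x with hc
  have hcx : c x ∈ c.target := mem_chart_target (E d) x
  have hx' : ∀ v : E d, v ≠ 0 → 0 < Q σ J x (c x) v := by
    rw [← tames_iff σ J x hcx, c.left_inv (mem_chart_source (E d) x)]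
    exact hx
  set G : (E d × (κ → ℝ)) → E d → ℝ := fun z v => Q σ J x z.1 v + ∑ k, z.2 k * Q (η k) J x z.1 v
    with hG
  have key : ∀ᶠ z : E d × (κ → ℝ) in 𝓝 (c x, 0), ∀ v ∈ Metric.sphere (0 : E d) 1, 0 < G z v := by
    refine IsCompact.eventually_forall_of_forall_eventually (isCompact_sphere _ _) ?_
    intro v hv
    have hv0 : v ≠ 0 := by
      rintro rfl
      simp at hv
    have hcont : ContinuousAt (fun w : (E d × (κ → ℝ)) × E d => G w.1 w.2) ((c x, 0), v) := by
      have h1 : ∀ {τ : Form d X 2}, IsSmooth τ →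
          ContinuousAt (fun w : (E d × (κ → ℝ)) × E d => Q τ J x w.1.1 w.2) ((c x, 0), v) := by
        intro τ hτ
        have h2 : ContinuousAt (fun w : (E d × (κ → ℝ)) × E d => (w.1.1, w.2)) ((c x, 0), v) := by
          fun_prop
        exact ContinuousAt.comp (f := fun w : (E d × (κ → ℝ)) × E d => (w.1.1, w.2))
          (x := ((c x, 0), v)) (g := fun z : E d × E d => Q τ J x z.1 z.2)
          (Q_cont hτ hJ x hcx) h2
      refine (h1 hσ).add ?_
      refine tendsto_finsetSum _ fun k _ => ?_
      have h3 : ContinuousAt (fun w : (E d × (κ → ℝ)) × E d => w.1.2 k) ((c x, 0), v) := by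
        fun_prop
      exact h3.mul (h1 (hη k))
    have hpos : 0 < G (c x, 0) v := by
      simp only [hG, Pi.zero_apply, zero_mul, Finset.sum_const_zero, add_zero]
      exact hx' v hv0
    exact hcont.eventually (lt_mem_nhds hpos)
  rw [nhds_prod_eq, eventually_prod_iff] at key
  obtain ⟨pa, hpa, pb', hpb, hP⟩ := key
  rw [Metric.eventually_nhds_iff] at hpb
  obtain ⟨δ, hδ, hpb⟩ := hpb
  refine ⟨δ / 2, by positivity, ?_⟩
  have h1 : ∀ᶠ y in 𝓝 x, pa (c y) :=
    (c.continuousAt (mem_chart_source (E d) x)).eventually hpa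
  have h2 : ∀ᶠ y in 𝓝 x, y ∈ c.source := c.open_source.mem_nhds (mem_chart_source (E d) x)
  filter_upwards [h1, h2] with y hy hys t ht
  have hcy : c y ∈ c.target := c.map_source hys
  rw [← c.left_inv hys, tames_iff _ J x hcy]
  rw [pos_iff _ (fun s v => Q_smul _ J x (c y) v s)]
  intro v hv
  rw [Q_sum]
  refine hP hy (hpb ?_) v hv
  rw [dist_zero_right]
  have h3 : ‖t‖ ≤ δ / 2 := by
    rw [pi_norm_le_iff_of_nonneg (by positivity)]
    exact ht
  linarith

theorem t_NULL : S_NULL := by
  intro d X _ _ _ J hJ σ η hσ hη hnn x hx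
  classical
  set c := chartAt (E d) x with hc
  have hcx : c x ∈ c.target := mem_chart_target (E d) x
  have hnn' : ∀ p ∈ c.target, ∀ v : E d, 0 ≤ Q σ J x p v := by
    intro p hp v
    rw [Q_eq σ J x hp]
    exact hnn _ _
  have hx' : ∀ v : E d, v ≠ 0 → Q σ J x (c x) v = 0 → 0 < Q η J x (c x) v := by
    have h1 : ∀ y : X, y = x → (∀ v : TangentSpace (𝓡 d) y, v ≠ 0 → σ y ![v, J y v] = 0 →
        0 < η y ![v, J y v]) := by
      rintro y rfl
      exact hx
    have h2 := h1 (c.symm (c x)) (c.left_inv (mem_chart_source (E d) x))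
    intro v hv h0
    rw [Q_eq σ J x hcx] at h0
    rw [Q_eq η J x hcx]
    refine h2 _ ?_ h0
    intro h3
    apply hv
    have h4 := BA x hcx v
    have h5 : A x (c x) v = 0 := h3
    rw [h5, map_zero] at h4
    exact h4.symm
  set G : (E d × ℝ) → E d → ℝ := fun z v => Q σ J x z.1 v + z.2 * Q η J x z.1 v with hG
  have key : ∀ᶠ z : E d × ℝ in 𝓝 (c x, 0), ∀ v ∈ Metric.sphere (0 : E d) 1,
      (0 < z.2 → 0 < G z v) := by
    refine IsCompact.eventually_forall_of_forall_eventually
      (P := fun (z : E d × ℝ) (v : E d) => 0 < z.2 → 0 < G z v) (isCompact_sphere _ _) ?_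
    intro v hv
    have hv0 : v ≠ 0 := by
      rintro rfl
      simp at hv
    have h1 : ∀ {τ : Form d X 2}, IsSmooth τ →
        ContinuousAt (fun w : (E d × ℝ) × E d => Q τ J x w.1.1 w.2) ((c x, 0), v) := by
      intro τ hτ
      have h2 : ContinuousAt (fun w : (E d × ℝ) × E d => (w.1.1, w.2)) ((c x, 0), v) := by
        fun_prop
      exact ContinuousAt.comp (f := fun w : (E d × ℝ) × E d => (w.1.1, w.2))
        (x := ((c x, 0), v)) (g := fun z : E d × E d => Q τ J x z.1 z.2)
        (Q_cont hτ hJ x hcx) h2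
    rcases (hnn' (c x) hcx v).eq_or_lt with h0 | h0
    · have hpos := hx' v hv0 h0.symm
      have h3 := (h1 hη).eventually (lt_mem_nhds hpos)
      have h4 : ∀ᶠ w : (E d × ℝ) × E d in 𝓝 ((c x, 0), v), w.1.1 ∈ c.target := by
        have h5 : ContinuousAt (fun w : (E d × ℝ) × E d => w.1.1) ((c x, 0), v) := by fun_prop
        exact h5.eventually (c.open_target.mem_nhds hcx)
      filter_upwards [h3, h4] with w hw hw' hpos'
      have h6 := hnn' _ hw' w.2
      have h7 := mul_pos hpos' hw
      simp only [hG]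
      linarith
    · have hcont : ContinuousAt (fun w : (E d × ℝ) × E d => G w.1 w.2) ((c x, 0), v) := by
        refine (h1 hσ).add ?_
        have h3 : ContinuousAt (fun w : (E d × ℝ) × E d => w.1.2) ((c x, 0), v) := by
          fun_prop
        exact h3.mul (h1 hη)
      have hpos : 0 < G (c x, 0) v := by
        simp only [hG, zero_mul, add_zero]
        exact h0
      filter_upwards [hcont.eventually (lt_mem_nhds hpos)] with w hw _
      exact hw
  rw [nhds_prod_eq, eventually_prod_iff] at key
  obtain ⟨pa, hpa, pb', hpb, hP⟩ := key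
  rw [Metric.eventually_nhds_iff] at hpb
  obtain ⟨δ, hδ, hpb⟩ := hpb
  refine ⟨δ / 2, by positivity, ?_⟩
  have h1 : ∀ᶠ y in 𝓝 x, pa (c y) :=
    (c.continuousAt (mem_chart_source (E d) x)).eventually hpa
  have h2 : ∀ᶠ y in 𝓝 x, y ∈ c.source := c.open_source.mem_nhds (mem_chart_source (E d) x)
  filter_upwards [h1, h2] with y hy hys ε hε hεδ
  have hcy : c y ∈ c.target := c.map_source hys
  rw [← c.left_inv hys, tames_iff _ J x hcy]
  rw [pos_iff _ (fun s v => Q_smul _ J x (c y) v s)]
  intro v hv
  have h3 : Q (σ + ε • η) J x (c y) v = Q σ J x (c y) v + ε * Q η J x (c y) v := by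
    have h4 := Q_sum (κ := Unit) σ (fun _ => η) (fun _ => ε) J x (c y) v
    simpa using h4
  rw [h3]
  refine hP hy (hpb ?_) v hv hε
  rw [dist_zero_right, Real.norm_eq_abs, abs_of_pos hε]
  linarith

end Pool.Agent.Y455.SY
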