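import Pool.Agent.Y501.SY.StmU
import Pool.Agent.Y141.SY.Mean

/-!
The averages of the translates of a bounded one-form and of its exterior derivative (SYU-MEAN1).
The pattern is `Pool.Agent.Y141.SY.Mean` (closed two-forms).
-/

set_option autoImplicit false
set_option linter.all false

open Set Filter Topology MeasureTheory
open scoped Manifold ContDiff

noncomputable section

namespace Pool.Agent.Y455.SY

open Pool.Agent.Y501.SY Pool.Agent.Y141.SY

section mean
variable {Γ : Type} [Group Γ] {m : (Γ → ℝ) → ℝ}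

variable {d k : ℕ}

/-- the mean of bounded alternating maps -/
theorem exists_avg (hm : IsMean m) (F : Γ → (E d) [⋀^Fin k]→L[ℝ] ℝ)
    (hF : ∃ C : ℝ, ∀ γ u, |F γ u| ≤ C * ∏ i, ‖u i‖) :
    ∃ α : (E d) [⋀^Fin k]→L[ℝ] ℝ, ∀ u, α u = m (fun γ => F γ u) := by
  obtain ⟨C, hC⟩ := hF
  have hb : ∀ u, Bdd (fun γ => F γ u) := fun u => ⟨_, fun γ => hC γ u⟩
  let f : (E d) [⋀^Fin k]→ₗ[ℝ] ℝ :=
    { toFun := fun u => m (fun γ => F γ u)
      map_update_add' := by
        intro _ u i x y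
        have h1 : ∀ γ, F γ (Function.update u i (x + y)) =
            F γ (Function.update u i x) + F γ (Function.update u i y) := fun γ => by
          convert (F γ).map_update_add u i x y
        simp only [h1]
        exact hm.add _ _ (hb _) (hb _)
      map_update_smul' := by
        intro _ u i c x
        have h1 : ∀ γ, F γ (Function.update u i (c • x)) =
            c * F γ (Function.update u i x) := fun γ => by
          rw [← smul_eq_mul]
          convert (F γ).map_update_smul u i c x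
        simp only [h1]
        exact hm.smul _ _ (hb _)
      map_eq_zero_of_eq' := by
        intro u i j hij hne
        have h1 : ∀ γ, F γ u = 0 := fun γ => (F γ).map_eq_zero_of_eq u hij hne
        simp only [h1]
        exact mean_const hm 0 }
  exact ⟨AlternatingMap.mkContinuous f C fun u => mean_abs hm fun γ => hC γ u, fun u => rfl⟩

end mean

section smooth
variable {d k : ℕ}

/-- evaluation -/
def evl (v : Fin k → E d) : ((E d) [⋀^Fin k]→L[ℝ] ℝ) →L[ℝ] ℝ :=
  LinearMap.mkContinuous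
    { toFun := fun α => α v
      map_add' := fun _ _ => rfl
      map_smul' := fun _ _ => rfl } (∏ i, ‖v i‖) fun α => by
    have := α.le_opNorm v
    rw [mul_comm]
    exact this

theorem evl_apply (v : Fin k → E d) (α : (E d) [⋀^Fin k]→L[ℝ] ℝ) : evl v α = α v := rfl

theorem smooth_of_eval {U : Set (E d)} {f : E d → (E d) [⋀^Fin k]→L[ℝ] ℝ}
    (h : ∀ v : Fin k → E d, ContDiffOn ℝ ∞ (fun p => f p v) U) : ContDiffOn ℝ ∞ f U := by
  let b := (EuclideanSpace.basisFun (Fin d) ℝ).toBasis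
  let ev : ((E d) [⋀^Fin k]→L[ℝ] ℝ) →ₗ[ℝ] ((Fin k → Fin d) → ℝ) :=
    { toFun := fun α s => α (fun i => b (s i))
      map_add' := fun _ _ => rfl
      map_smul' := fun _ _ => rfl }
  have hker : LinearMap.ker ev = ⊥ := by
    rw [LinearMap.ker_eq_bot]
    intro α β hαβ
    have h1 : α.toAlternatingMap = β.toAlternatingMap := by
      refine Module.Basis.ext_alternating b fun s _ => ?_
      exact congrFun hαβ s
    exact ContinuousAlternatingMap.toAlternatingMap_injective h1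
  obtain ⟨g, hg⟩ := ev.exists_leftInverse_of_injective hker
  have h2 : ContDiffOn ℝ ∞ (fun p => ev (f p)) U := by
    rw [contDiffOn_pi]
    intro s
    exact h _
  have h3 : ContDiffOn ℝ ∞ (fun p => (LinearMap.toContinuousLinearMap g) (ev (f p))) U :=
    (LinearMap.toContinuousLinearMap g).contDiff.comp_contDiffOn h2
  refine h3.congr fun p _ => ?_
  exact (LinearMap.congr_fun hg (f p)).symm

theorem unif_eval {Γ : Type} {U : Set (E d)} (hU : IsOpen U)
    {F : Γ → E d → (E d) [⋀^Fin k]→L[ℝ] ℝ} (h : UnifBdd F U) (v : Fin k → E d) :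
    UnifBdd (fun γ p => F γ p v) U := by
  refine ⟨fun γ => (evl v).contDiff.comp_contDiffOn (h.1 γ), fun n p hp => ?_⟩
  obtain ⟨N, hN, C, hC⟩ := h.2 n p hp
  refine ⟨N ∩ U, inter_mem hN (hU.mem_nhds hp), ‖evl v‖ * C, fun q hq γ => ?_⟩
  have h1 : ContDiffAt ℝ ∞ (F γ) q := (h.1 γ).contDiffAt (hU.mem_nhds hq.2)
  have h2 : iteratedFDeriv ℝ n (fun p => F γ p v) q =
      (evl v).compContinuousMultilinearMap (iteratedFDeriv ℝ n (F γ) q) :=
    (evl v).iteratedFDeriv_comp_left h1 (by exact_mod_cast le_top)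
  rw [h2]
  refine ((evl v).norm_compContinuousMultilinearMap_le _).trans ?_
  exact mul_le_mul_of_nonneg_left (hC q hq.1 γ) (norm_nonneg _)

end smooth

/-- the pull-back of a form -/
def pullk {d k : ℕ} {X Y : Type} [TopologicalSpace X] [ChartedSpace (E d) X]
    [TopologicalSpace Y] [ChartedSpace (E d) Y] (f : X → Y) (β : Form d Y k) : Form d X k :=
  fun x => ((β (f x)).compContinuousLinearMap (mfderiv (𝓡 d) (𝓡 d) f x))

/-- the average of a form, in every degree -/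
theorem mean_form (hAVG : S_AVG) {d k : ℕ} {Z : Type} [TopologicalSpace Z] [ChartedSpace (E d) Z]
    [IsManifold (𝓡 d) ∞ Z] {Γ : Type} [Group Γ] [MulAction Γ Z] {m : (Γ → ℝ) → ℝ} (hm : IsMean m)
    (hsm : ∀ γ : Γ, ContMDiff (𝓡 d) (𝓡 d) ∞ (fun z : Z => γ • z)) (w : Form d Z k)
    (hbt : ∀ (U : Set (E d)) (φ : E d → Z), IsOpen U → ContMDiffOn (𝓡 d) (𝓡 d) ∞ φ U →
      UnifBdd (fun (γ : Γ) => pb (fun p => γ • φ p) w) U) :
    ∃ w' : Form d Z k, IsSmooth w' ∧
      (∀ (z : Z) (u : Fin k → TangentSpace (𝓡 d) z),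
        Bdd (fun γ : Γ => pullk (d := d) (fun z : Z => γ • z) w z u) ∧
        w' z u = m (fun γ : Γ => pullk (d := d) (fun z : Z => γ • z) w z u)) ∧
      (∀ (φ : E d → Z) (p : E d), MDifferentiableAt (𝓡 d) (𝓡 d) φ p →
        ∀ v : Fin k → E d, pb φ (w' : Form d Z k) p v =
          m (fun γ : Γ => pb (fun p => γ • φ p) w p v)) := by
  -- chain rule
  have chain : ∀ (φ : E d → Z) (p : E d), MDifferentiableAt (𝓡 d) (𝓡 d) φ p →
      ∀ (γ : Γ) (v : Fin k → E d), pb (fun p => γ • φ p) w p v =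
        pullk (d := d) (fun z : Z => γ • z) w (φ p) (fun i => mfderiv (𝓡 d) (𝓡 d) φ p (v i)) := by
    intro φ p hφ γ v
    have h1 : MDifferentiableAt (𝓡 d) (𝓡 d) (fun z : Z => γ • z) (φ p) :=
      (hsm γ).mdifferentiableAt (by simp)
    have h2 : mfderiv (𝓡 d) (𝓡 d) (fun p => γ • φ p) p =
        (mfderiv (𝓡 d) (𝓡 d) (fun z : Z => γ • z) (φ p)).comp (mfderiv (𝓡 d) (𝓡 d) φ p) :=
      mfderiv_comp p h1 hφ
    unfold pb pullk
    rw [h2]
    rfl
  -- bounds
  have bound : ∀ z : Z, ∃ C : ℝ, ∀ (γ : Γ) (u : Fin k → E d),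
      |(pullk (d := d) (fun z : Z => γ • z) w z : (E d) [⋀^Fin k]→L[ℝ] ℝ) u| ≤ C * ∏ i, ‖u i‖ := by
    intro z
    obtain ⟨e, he⟩ : ∃ e, e = chartAt (E d) z := ⟨_, rfl⟩
    have hat : e ∈ atlas (E d) Z := by rw [he]; exact chart_mem_atlas _ _
    have hz : z ∈ e.source := by rw [he]; exact mem_chart_source _ _
    have hsmooth : ContMDiffOn (𝓡 d) (𝓡 d) ∞ e.symm e.target := by
      rw [he]
      exact contMDiffOn_chart_symm
    have hmd := mdifferentiable_chart (I := 𝓡 d) z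
    rw [← he] at hmd
    have hpt : e z ∈ e.target := e.map_source hz
    obtain ⟨N, hN, C, hC⟩ := (hbt e.target e.symm e.open_target hsmooth).2 0 (e z) hpt
    have hC' : ∀ γ : Γ, ‖pb (fun p => γ • e.symm p) w (e z)‖ ≤ C := fun γ => by
      have := hC (e z) (mem_of_mem_nhds hN) γ
      rwa [norm_iteratedFDeriv_zero] at this
    have hmf : MDifferentiableAt (𝓡 d) (𝓡 d) e.symm (e z) :=
      (hsmooth.contMDiffAt (e.open_target.mem_nhds hpt)).mdifferentiableAt (by simp)
    let B : E d →L[ℝ] E d := mfderiv (𝓡 d) (𝓡 d) e z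
    let A : E d →L[ℝ] E d := mfderiv (𝓡 d) (𝓡 d) e.symm (e z)
    have hAB : ∀ v : E d, A (B v) = v := fun v =>
      DFunLike.congr_fun (hmd.symm_comp_deriv hz) v
    have hC0 : 0 ≤ C := (norm_nonneg _).trans (hC' 1)
    refine ⟨C * ‖B‖ ^ k, fun γ u => ?_⟩
    have h1 := chain e.symm (e z) hmf γ (fun i => B (u i))
    have h2 : (pullk (d := d) (fun z : Z => γ • z) w z : (E d) [⋀^Fin k]→L[ℝ] ℝ) u =
        pb (fun p => γ • e.symm p) w (e z) (fun i => B (u i)) := by
      rw [h1]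
      have h3 : ∀ z' : Z, z' = z → (pullk (d := d) (fun z : Z => γ • z) w z :
          (E d) [⋀^Fin k]→L[ℝ] ℝ) u =
          (pullk (d := d) (fun z : Z => γ • z) w z' : (E d) [⋀^Fin k]→L[ℝ] ℝ) u := by
        rintro z' rfl
        rfl
      rw [h3 _ (e.left_inv hz)]
      congr 1
      funext i
      exact (hAB (u i)).symm
    rw [h2]
    refine ((pb (fun p => γ • e.symm p) w (e z)).le_opNorm _).trans ?_
    refine (mul_le_mul_of_nonneg_right (hC' γ) (Finset.prod_nonneg fun i _ => norm_nonneg _)).trans ?_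
    rw [mul_assoc]
    refine mul_le_mul_of_nonneg_left ?_ hC0
    calc ∏ i, ‖B (u i)‖ ≤ ∏ i, (‖B‖ * ‖u i‖) :=
          Finset.prod_le_prod (fun i _ => norm_nonneg _) (fun i _ => B.le_opNorm (u i))
      _ = ‖B‖ ^ k * ∏ i, ‖u i‖ := by
          rw [Finset.prod_mul_distrib, Finset.prod_const, Finset.card_univ, Fintype.card_fin]
  have hex : ∀ z : Z, ∃ α : (E d) [⋀^Fin k]→L[ℝ] ℝ, ∀ u : Fin k → E d, α u =
      m (fun γ : Γ => (pullk (d := d) (fun z : Z => γ • z) w z : (E d) [⋀^Fin k]→L[ℝ] ℝ) u) :=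
    fun z => exists_avg hm _ (bound z)
  choose w' hw' using hex
  -- the average in coordinates
  have hev : ∀ (φ : E d → Z) (p : E d), MDifferentiableAt (𝓡 d) (𝓡 d) φ p →
      ∀ v : Fin k → E d, pb φ (w' : Form d Z k) p v =
        m (fun γ : Γ => pb (fun p => γ • φ p) w p v) := by
    intro φ p hφ v
    have h1 : pb φ (w' : Form d Z k) p v =
        w' (φ p) (fun i => mfderiv (𝓡 d) (𝓡 d) φ p (v i)) := rfl
    rw [h1, hw']
    congr 1
    funext γ
    exact (chain φ p hφ γ v).symm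
  have hmdiff : ∀ (U : Set (E d)) (φ : E d → Z), IsOpen U → ContMDiffOn (𝓡 d) (𝓡 d) ∞ φ U →
      ∀ p ∈ U, MDifferentiableAt (𝓡 d) (𝓡 d) φ p := fun U φ hU hφ p hp =>
    (hφ.contMDiffAt (hU.mem_nhds hp)).mdifferentiableAt (by simp)
  have hsm' : IsSmooth (w' : Form d Z k) := by
    intro U φ hU hφ
    refine smooth_of_eval fun v => ?_
    exact (hAVG d Γ m hm U (fun γ p => pb (fun p => γ • φ p) w p v) hU
      (unif_eval hU (hbt U φ hU hφ) v)).1.congr fun p hp => hev φ p (hmdiff U φ hU hφ p hp) v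
  refine ⟨w', hsm', fun z u => ⟨?_, hw' z u⟩, hev⟩
  obtain ⟨C, hC⟩ := bound z
  exact ⟨_, fun γ => hC γ u⟩

theorem t_MEAN1 : S_MEAN1 := by
  intro hAVG d Z _ _ _ Γ _ _ m hm hsm β η hβ hη hD hb1 hb2
  obtain ⟨β', hs1, hv1, he1⟩ := mean_form hAVG hm hsm β hb1
  obtain ⟨η', hs2, hv2, he2⟩ := mean_form hAVG hm hsm η hb2
  have hmdiff : ∀ (U : Set (E d)) (φ : E d → Z), IsOpen U → ContMDiffOn (𝓡 d) (𝓡 d) ∞ φ U →
      ∀ p ∈ U, MDifferentiableAt (𝓡 d) (𝓡 d) φ p := fun U φ hU hφ p hp =>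
    (hφ.contMDiffAt (hU.mem_nhds hp)).mdifferentiableAt (by simp)
  refine ⟨β', η', hs1, hs2, ?_, hv1, hv2⟩
  intro U φ hU hφ p hp
  have hd : DifferentiableAt ℝ (pb φ (β' : Form d Z 1)) p :=
    ((hs1 U φ hU hφ).contDiffAt (hU.mem_nhds hp)).differentiableAt (by simp)
  have hun := hb1 U φ hU hφ
  have hAV : ∀ v : Fin 1 → E d,
      ∀ x : E d, fderiv ℝ (fun p => m (fun γ : Γ => pb (fun p => γ • φ p) β p v)) p x =
          m (fun γ => fderiv ℝ (fun p => pb (fun p => γ • φ p) β p v) p x) := fun v =>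
    (hAVG d Γ m hm U (fun γ p => pb (fun p => γ • φ p) β p v) hU (unif_eval hU hun v)).2 p hp
  ext v
  rw [extDeriv_apply hd]
  have h1 : ∀ i : Fin 2, fderiv ℝ (fun q => pb φ (β' : Form d Z 1) q (i.removeNth v)) p (v i) =
      m (fun γ : Γ => fderiv ℝ (fun q => pb (fun p => γ • φ p) β q (i.removeNth v)) p (v i)) := by
    intro i
    rw [← hAV (i.removeNth v)]
    have h2 : (fun q => pb φ (β' : Form d Z 1) q (i.removeNth v)) =ᶠ[𝓝 p]
        fun q => m (fun γ : Γ => pb (fun p => γ • φ p) β q (i.removeNth v)) := by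
      filter_upwards [hU.mem_nhds hp] with q hq
      exact he1 φ q (hmdiff U φ hU hφ q hq) _
    rw [h2.fderiv_eq]
  have hbd : ∀ i : Fin 2, Bdd (fun γ : Γ =>
      fderiv ℝ (fun q => pb (fun p => γ • φ p) β q (i.removeNth v)) p (v i)) := by
    intro i
    obtain ⟨N, hN, C, hC⟩ := (unif_eval hU hun (i.removeNth v)).2 1 p hp
    refine ⟨C * ‖v i‖, fun γ => ?_⟩
    have h2 := hC p (mem_of_mem_nhds hN) γ
    rw [norm_iteratedFDeriv_one] at h2
    exact (ContinuousLinearMap.le_opNorm _ _).trans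
      (mul_le_mul_of_nonneg_right h2 (norm_nonneg _))
  have h3 : ∀ γ : Γ, ∑ i : Fin 2, (-1 : ℝ) ^ i.val *
      fderiv ℝ (fun q => pb (fun p => γ • φ p) β q (i.removeNth v)) p (v i) =
        pb (fun p => γ • φ p) η p v := by
    intro γ
    have h4 : ContMDiffOn (𝓡 d) (𝓡 d) ∞ (fun p => γ • φ p) U := (hsm γ).comp_contMDiffOn hφ
    have h5 := hD U (fun p => γ • φ p) hU h4 p hp
    have h6 : DifferentiableAt ℝ (pb (fun p => γ • φ p) β) p :=
      ((hβ U _ hU h4).contDiffAt (hU.mem_nhds hp)).differentiableAt (by simp)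
    have h7 : extDeriv (pb (fun p => γ • φ p) β) p v = pb (fun p => γ • φ p) η p v :=
      congrArg (fun α => α v) h5
    rw [extDeriv_apply h6] at h7
    simpa only [zsmul_eq_mul, Int.cast_pow, Int.cast_neg, Int.cast_one] using h7
  have h8 := (mean_sum hm Finset.univ (fun i : Fin 2 => (-1 : ℝ) ^ i.val)
    (fun (i : Fin 2) (γ : Γ) => fderiv ℝ (fun q => pb (fun p => γ • φ p) β q (i.removeNth v)) p (v i)) hbd).2
  simp only [h3] at h8
  have h9 := he2 φ p (hmdiff U φ hU hφ p hp) v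
  show ∑ i : Fin 2, (-1 : ℤ) ^ i.val •
    fderiv ℝ (fun q => pb φ (β' : Form d Z 1) q (i.removeNth v)) p (v i) = pb φ (η' : Form d Z 2) p v
  simp only [h1, zsmul_eq_mul, Int.cast_pow, Int.cast_neg, Int.cast_one]
  rw [h9]
  exact h8.symm

end Pool.Agent.Y455.SY
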